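import Pool.Agent.Lib.MP_55c1e7_ag.Cech

/-!
# Flop data: finset combinatorics and localisation lemmas (box L2, common file)
-/

set_option autoImplicit false

open CategoryTheory CategoryTheory.Limits AlgebraicGeometry

namespace BadRed

/-! ## Combinatorics of the charts -/

section comb

variable {ι : Type}

/-- the chart of `Z` under a chart of `X` -/
def prC : ι ⊕ Bool → Option ι
  | Sum.inl i => some i
  | Sum.inr _ => none

@[simp] lemma prC_inl (i : ι) : prC (Sum.inl i : ι ⊕ Bool) = some i := rfl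
@[simp] lemma prC_inr (b : Bool) : prC (Sum.inr b : ι ⊕ Bool) = none := rfl

/-- the charts over the special chart used by the three kinds -/
def okC : Ch → Bool → Prop
  | Ch.c0, b => b = false
  | Ch.c1, b => b = true
  | Ch.c01, _ => True

@[simp] lemma okC_c0 (b : Bool) : okC Ch.c0 b ↔ b = false := Iff.rfl
@[simp] lemma okC_c1 (b : Bool) : okC Ch.c1 b ↔ b = true := Iff.rfl
@[simp] lemma okC_c01 (b : Bool) : okC Ch.c01 b := trivial

/-- the charts of `X` over a chart of `Z` -/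
def sF : Ch → Option ι → Finset (ι ⊕ Bool)
  | _, some i => {Sum.inl i}
  | Ch.c0, none => {Sum.inr false}
  | Ch.c1, none => {Sum.inr true}
  | Ch.c01, none => {Sum.inr false}

/-- the special member which is added to `sF` for the kind `c01` -/
def sE : Ch → Option ι → Finset (ι ⊕ Bool)
  | Ch.c01, none => {Sum.inr true}
  | _, _ => ∅

variable [DecidableEq ι]

/-- the image in `Z` -/
def prX (S : NF (ι ⊕ Bool)) : NF (Option ι) := ⟨S.1.image prC, S.2.image prC⟩

/-- the three kinds of open sets of `X` over an open set of `Z` -/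
def sX (e : Ch) (J : NF (Option ι)) : NF (ι ⊕ Bool) :=
  ⟨J.1.biUnion (sF e) ∪ J.1.biUnion (sE e), by
    obtain ⟨o, ho⟩ := J.2
    have h : (sF e o).Nonempty := by
      cases e <;> cases o <;> exact Finset.singleton_nonempty _
    obtain ⟨l, hl⟩ := h
    exact ⟨l, Finset.mem_union_left _ (Finset.mem_biUnion.mpr ⟨o, ho, hl⟩)⟩⟩

lemma mem_sX_inl {e : Ch} {J : NF (Option ι)} {i : ι} :
    (Sum.inl i : ι ⊕ Bool) ∈ (sX e J).1 ↔ some i ∈ J.1 := by
  rw [sX, Finset.mem_union, Finset.mem_biUnion, Finset.mem_biUnion]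
  constructor
  · rintro (⟨o, ho, hl⟩ | ⟨o, ho, hl⟩)
    · cases o with
      | none => cases e <;> simp [sF] at hl
      | some j =>
        have : i = j := by cases e <;> simpa [sF] using hl
        rw [this]; exact ho
    · cases e <;> cases o <;> simp [sE] at hl
  · intro h
    refine Or.inl ⟨some i, h, ?_⟩
    cases e <;> simp [sF]

lemma mem_sX_inr {e : Ch} {J : NF (Option ι)} {b : Bool} :
    (Sum.inr b : ι ⊕ Bool) ∈ (sX e J).1 ↔ none ∈ J.1 ∧ okC e b := by
  rw [sX, Finset.mem_union, Finset.mem_biUnion, Finset.mem_biUnion]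
  constructor
  · rintro (⟨o, ho, hl⟩ | ⟨o, ho, hl⟩)
    · cases o with
      | none => refine ⟨ho, ?_⟩; cases e <;> simp_all [sF, okC]
      | some j => cases e <;> simp [sF] at hl
    · cases o with
      | none => refine ⟨ho, ?_⟩; cases e <;> simp_all [sE, okC]
      | some j => cases e <;> simp [sE] at hl
  · rintro ⟨h, hb⟩
    cases e with
    | c0 => exact Or.inl ⟨none, h, by simp_all [sF, okC]⟩
    | c1 => exact Or.inl ⟨none, h, by simp_all [sF, okC]⟩
    | c01 =>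
      cases b with
      | false => exact Or.inl ⟨none, h, by simp [sF]⟩
      | true => exact Or.inr ⟨none, h, by simp [sE]⟩

lemma mem_prX_some {S : NF (ι ⊕ Bool)} {i : ι} : some i ∈ (prX S).1 ↔ Sum.inl i ∈ S.1 := by
  rw [prX, Finset.mem_image]
  constructor
  · rintro ⟨l, hl, h⟩
    cases l with
    | inl j => simp only [prC_inl, Option.some.injEq] at h; rw [← h]; exact hl
    | inr b => simp at h
  · intro h; exact ⟨_, h, rfl⟩

lemma mem_prX_none {S : NF (ι ⊕ Bool)} : none ∈ (prX S).1 ↔ ∃ b, Sum.inr b ∈ S.1 := by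
  rw [prX, Finset.mem_image]
  constructor
  · rintro ⟨l, hl, h⟩
    cases l with
    | inl j => simp at h
    | inr b => exact ⟨b, hl⟩
  · rintro ⟨b, h⟩; exact ⟨_, h, rfl⟩

lemma prC_mem_prX {S : NF (ι ⊕ Bool)} {l : ι ⊕ Bool} (h : l ∈ S.1) : prC l ∈ (prX S).1 := by
  rw [prX, Finset.mem_image]; exact ⟨l, h, rfl⟩

lemma prC_mem_of_mem_sX {e : Ch} {J : NF (Option ι)} {l : ι ⊕ Bool} (h : l ∈ (sX e J).1) :
    prC l ∈ J.1 := by
  cases l with
  | inl i => exact mem_sX_inl.mp h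
  | inr b => exact (mem_sX_inr.mp h).1

end comb

/-- A chosen element of a nonempty finset. -/
noncomputable def NF.pick {α : Type} (S : NF α) : α := S.2.choose

lemma NF.pick_mem {α : Type} (S : NF α) : S.pick ∈ S.1 := S.2.choose_spec

lemma NF.pick_single {α : Type} (a : α) : (NF.single a).pick = a :=
  Finset.mem_singleton.mp (NF.single a).pick_mem

/-! ## Localisation inside `K` -/

section locSub

variable {k K : Type} [Field k] [Field K] [Algebra k K]

/-- `A[1/p]`. -/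
def locSub (A : Subalgebra k K) (p : K) (hp : p ∈ A) : Subalgebra k K where
  carrier := {f | ∃ n : ℕ, p ^ n * f ∈ A}
  mul_mem' := by
    rintro a b ⟨n, ha⟩ ⟨m, hb⟩
    refine ⟨n + m, ?_⟩
    rw [pow_add, show p ^ n * p ^ m * (a * b) = (p ^ n * a) * (p ^ m * b) by ring]
    exact A.mul_mem ha hb
  add_mem' := by
    rintro a b ⟨n, ha⟩ ⟨m, hb⟩
    refine ⟨n + m, ?_⟩
    rw [pow_add, show p ^ n * p ^ m * (a + b) = p ^ m * (p ^ n * a) + p ^ n * (p ^ m * b) by ring]
    exact A.add_mem (A.mul_mem (A.pow_mem hp _) ha) (A.mul_mem (A.pow_mem hp _) hb)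
  algebraMap_mem' := fun c => ⟨0, by rw [pow_zero, one_mul]; exact A.algebraMap_mem c⟩

lemma mem_locSub {A : Subalgebra k K} {p : K} {hp : p ∈ A} {f : K} :
    f ∈ locSub A p hp ↔ ∃ n : ℕ, p ^ n * f ∈ A := Iff.rfl

lemma le_locSub {A : Subalgebra k K} {p : K} (hp : p ∈ A) : A ≤ locSub A p hp :=
  fun f hf => ⟨0, by rw [pow_zero, one_mul]; exact hf⟩

lemma locSub_mono {A B : Subalgebra k K} {p : K} (hp : p ∈ A) (h : A ≤ B) :
    locSub A p hp ≤ locSub B p (h hp) := fun _ ⟨n, hn⟩ => ⟨n, h hn⟩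

lemma locSub_le {A B : Subalgebra k K} {p : K} (hp : p ∈ A) (hp0 : p ≠ 0) (h : A ≤ B)
    (hi : p⁻¹ ∈ B) : locSub A p hp ≤ B := by
  rintro f ⟨n, hn⟩
  have e : f = p⁻¹ ^ n * (p ^ n * f) := by
    rw [← mul_assoc, ← mul_pow, inv_mul_cancel₀ hp0, one_pow, one_mul]
  rw [e]
  exact B.mul_mem (B.pow_mem hi _) (h hn)

end locSub

/-! ## The denominator of `J` at `o` -/

section den

variable {k K : Type} [Field k] [Field K] [Algebra k K] {κ : Type}

/-- the product of `sig j / sig o` for `j ∈ J` -/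
def dP (sig : κ → K) (o : κ) (J : NF κ) : K := ∏ j ∈ J.1, sig j / sig o

lemma dP_ne {sig : κ → K} (hs : ∀ i, sig i ≠ 0) (o : κ) (J : NF κ) : dP sig o J ≠ 0 :=
  Finset.prod_ne_zero_iff.mpr fun j _ => div_ne_zero (hs j) (hs o)

lemma dP_mem {R : κ → Subalgebra k K} {sig : κ → K} (hm : ∀ i j, sig j / sig i ∈ R i) (o : κ)
    (J : NF κ) : dP sig o J ∈ R o := Subalgebra.prod_mem _ fun j _ => hm o j

lemma dP_inv {sig : κ → K} (o : κ) (J : NF κ) :
    (dP sig o J)⁻¹ = ∏ j ∈ J.1, sig o / sig j := by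
  rw [dP, ← Finset.prod_inv_distrib]
  exact Finset.prod_congr rfl fun j _ => inv_div _ _

lemma dP_inv_mem {R : κ → Subalgebra k K} {sig : κ → K} (hm : ∀ i j, sig j / sig i ∈ R i)
    (o : κ) (J : NF κ) : (dP sig o J)⁻¹ ∈ cechRing R J := by
  rw [dP_inv]
  exact Subalgebra.prod_mem _ fun j hj => le_cechRing R J hj (hm j o)

/-- an element of `R j` has denominator a power of `dP o J` -/
lemma le_locSub_dP {R : κ → Subalgebra k K} {sig : κ → K} (hm : ∀ i j, sig j / sig i ∈ R i)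
    (hl : ∀ i j, ∀ f ∈ R j, ∃ n : ℕ, (sig j / sig i) ^ n * f ∈ R i) (o : κ) (J : NF κ)
    {j : κ} (hj : j ∈ J.1) : R j ≤ locSub (R o) (dP sig o J) (dP_mem hm o J) := by
  classical
  intro f hf
  obtain ⟨n, hn⟩ := hl o j f hf
  refine ⟨n, ?_⟩
  rw [dP, ← Finset.mul_prod_erase J.1 (fun j => sig j / sig o) hj, mul_pow,
    mul_comm ((sig j / sig o) ^ n), mul_assoc]
  refine (R o).mul_mem ((R o).pow_mem (Subalgebra.prod_mem _ fun j _ => hm o j) _) hn

/-- K1 -/
lemma cechRing_eq_locSub {R : κ → Subalgebra k K} {sig : κ → K} (hs : ∀ i, sig i ≠ 0)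
    (hm : ∀ i j, sig j / sig i ∈ R i)
    (hl : ∀ i j, ∀ f ∈ R j, ∃ n : ℕ, (sig j / sig i) ^ n * f ∈ R i) {o : κ} {J : NF κ}
    (ho : o ∈ J.1) : cechRing R J = locSub (R o) (dP sig o J) (dP_mem hm o J) := by
  apply le_antisymm
  · exact iSup₂_le fun j hj => le_locSub_dP hm hl o J hj
  · exact locSub_le _ (dP_ne hs o J) (le_cechRing R J ho) (dP_inv_mem hm o J)

end den

/-! ## Flop data -/

variable {k K : Type} [Field k] [Field K] [Algebra k K] {ι : Type}

namespace FlopData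

variable (D : FlopData k K ι)

/-- rings of the open sets of `X` -/
abbrev AX (S : NF (ι ⊕ Bool)) : Subalgebra k K := cechRing D.ch S

/-- rings of the open sets of `Z` -/
abbrev RZ (J : NF (Option ι)) : Subalgebra k K := cechRing D.R J

/-- the chosen coordinate -/
noncomputable def sigZ (J : NF (Option ι)) : K := D.sig J.pick

open Classical in
/-- the chosen generator -/
noncomputable def genX (S : NF (ι ⊕ Bool)) : K :=
  if Sum.inr false ∈ S.1 then D.g0 else if Sum.inr true ∈ S.1 then D.g1 else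
    genl D.g D.g0 D.g1 S.pick

/-- the denominator of `J` at `o` -/
abbrev P (o : Option ι) (J : NF (Option ι)) : K := dP D.sig o J

/-- the three rings over the special chart -/
def B : Ch → Subalgebra k K
  | Ch.c0 => D.ch (Sum.inr false)
  | Ch.c1 => D.ch (Sum.inr true)
  | Ch.c01 => D.ch (Sum.inr false) ⊔ D.ch (Sum.inr true)

lemma genl_ne (l : ι ⊕ Bool) : genl D.g D.g0 D.g1 l ≠ 0 := by
  rcases l with i | b
  · exact D.g_ne i
  · cases b
    · exact D.g0_ne
    · exact D.g1_ne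

lemma sigl_eq (l : ι ⊕ Bool) : sigl D.sig l = D.sig (prC l) := by
  rcases l with i | b <;> rfl

lemma sigl_ne (l : ι ⊕ Bool) : sigl D.sig l ≠ 0 := by
  rw [sigl_eq]; exact D.sig_ne _

lemma R_le_ch (l : ι ⊕ Bool) : D.R (prC l) ≤ D.ch l := by
  rcases l with i | b
  · exact le_rfl
  · cases b <;> exact le_sup_left

lemma R_le_B (e : Ch) : D.R none ≤ D.B e := by
  cases e
  · exact D.R_le_ch (Sum.inr false)
  · exact D.R_le_ch (Sum.inr true)
  · exact (D.R_le_ch (Sum.inr false)).trans le_sup_left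

lemma ch_le_B {e : Ch} {b : Bool} (h : okC e b) : D.ch (Sum.inr b) ≤ D.B e := by
  cases e
  · rw [okC_c0] at h; subst h; exact le_rfl
  · rw [okC_c1] at h; subst h; exact le_rfl
  · cases b
    · exact le_sup_left
    · exact le_sup_right

lemma P_ne (o : Option ι) (J : NF (Option ι)) : D.P o J ≠ 0 := dP_ne D.sig_ne o J

lemma P_mem (o : Option ι) (J : NF (Option ι)) : D.P o J ∈ D.R o := dP_mem D.sig_mem o J

lemma P_inv_mem (o : Option ι) (J : NF (Option ι)) : (D.P o J)⁻¹ ∈ D.RZ J :=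
  dP_inv_mem D.sig_mem o J

/-- K1 -/
lemma RZ_eq {o : Option ι} {J : NF (Option ι)} (ho : o ∈ J.1) :
    D.RZ J = locSub (D.R o) (D.P o J) (D.P_mem o J) :=
  cechRing_eq_locSub D.sig_ne D.sig_mem D.loc ho

/-- K1 -/
lemma mem_RZ_iff {o : Option ι} {J : NF (Option ι)} (ho : o ∈ J.1) {f : K} :
    f ∈ D.RZ J ↔ ∃ n : ℕ, D.P o J ^ n * f ∈ D.R o := by
  rw [D.RZ_eq ho]; rfl

variable [DecidableEq ι]

lemma RZ_prX_le (S : NF (ι ⊕ Bool)) : D.RZ (prX S) ≤ D.AX S := by
  refine iSup₂_le fun o ho => ?_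
  rw [prX, Finset.mem_image] at ho
  obtain ⟨l, hl, rfl⟩ := ho
  exact (D.R_le_ch l).trans (le_cechRing D.ch S hl)

lemma RZ_le (e : Ch) (J : NF (Option ι)) : D.RZ J ≤ D.AX (sX e J) := by
  refine iSup₂_le fun o ho => ?_
  cases o with
  | some i => exact le_cechRing D.ch (sX e J) (mem_sX_inl.mpr ho)
  | none =>
    have h : ∃ b, okC e b := by
      cases e
      · exact ⟨false, rfl⟩
      · exact ⟨true, rfl⟩
      · exact ⟨true, trivial⟩
    obtain ⟨b, hb⟩ := h
    exact (D.R_le_ch (Sum.inr b)).trans (le_cechRing D.ch (sX e J) (mem_sX_inr.mpr ⟨ho, hb⟩))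

lemma B_le (e : Ch) {J : NF (Option ι)} (h : none ∈ J.1) : D.B e ≤ D.AX (sX e J) := by
  cases e
  · exact le_cechRing D.ch _ (mem_sX_inr.mpr ⟨h, rfl⟩)
  · exact le_cechRing D.ch _ (mem_sX_inr.mpr ⟨h, rfl⟩)
  · exact sup_le (le_cechRing D.ch _ (mem_sX_inr.mpr ⟨h, trivial⟩))
      (le_cechRing D.ch _ (mem_sX_inr.mpr ⟨h, trivial⟩))

/-- K3 -/
lemma AX_eq (e : Ch) {J : NF (Option ι)} (h : none ∈ J.1) :
    D.AX (sX e J) = locSub (D.B e) (D.P none J) (D.R_le_B e (D.P_mem none J)) := by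
  apply le_antisymm
  · refine iSup₂_le fun l hl => ?_
    cases l with
    | inl i =>
      exact (le_locSub_dP D.sig_mem D.loc none J (mem_sX_inl.mp hl)).trans
        (locSub_mono _ (D.R_le_B e))
    | inr b => exact (D.ch_le_B (mem_sX_inr.mp hl).2).trans (le_locSub _)
  · exact locSub_le _ (D.P_ne none J) (D.B_le e h) (D.RZ_le e J (D.P_inv_mem none J))

/-- K3 -/
lemma mem_AX_iff (e : Ch) {J : NF (Option ι)} (h : none ∈ J.1) {f : K} :
    f ∈ D.AX (sX e J) ↔ ∃ n : ℕ, D.P none J ^ n * f ∈ D.B e := by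
  rw [D.AX_eq e h]; rfl

/-- over a non-special open set there is one chart -/
lemma AX_eq_RZ (e : Ch) {J : NF (Option ι)} (h : none ∉ J.1) : D.AX (sX e J) = D.RZ J := by
  apply le_antisymm
  · refine iSup₂_le fun l hl => ?_
    cases l with
    | inl i => exact le_cechRing D.R J (mem_sX_inl.mp hl)
    | inr b => exact absurd (mem_sX_inr.mp hl).1 h
  · exact D.RZ_le e J

/-- K2 -/
lemma AX_inf (J : NF (Option ι)) : D.AX (sX Ch.c0 J) ⊓ D.AX (sX Ch.c1 J) = D.RZ J := by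
  by_cases h : none ∈ J.1
  · apply le_antisymm
    · rintro f ⟨h0, h1⟩
      obtain ⟨n, hn⟩ := (D.mem_AX_iff Ch.c0 h).mp h0
      obtain ⟨m, hm⟩ := (D.mem_AX_iff Ch.c1 h).mp h1
      rw [D.mem_RZ_iff h]
      refine ⟨n + m, D.inter ⟨?_, ?_⟩⟩
      · rw [pow_add, mul_comm (D.P none J ^ n), mul_assoc]
        exact (D.B Ch.c0).mul_mem ((D.B Ch.c0).pow_mem (D.R_le_B _ (D.P_mem none J)) _) hn
      · rw [pow_add, mul_assoc]
        exact (D.B Ch.c1).mul_mem ((D.B Ch.c1).pow_mem (D.R_le_B _ (D.P_mem none J)) _) hm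
    · exact le_inf (D.RZ_le _ J) (D.RZ_le _ J)
  · rw [D.AX_eq_RZ _ h, D.AX_eq_RZ _ h, inf_idem]

omit [DecidableEq ι] in
/-- K4 -/
lemma sig_div_mem {J : NF (Option ι)} {o o' : Option ι} (ho' : o' ∈ J.1) :
    D.sig o / D.sig o' ∈ D.RZ J := le_cechRing D.R J ho' (D.sig_mem o' o)

omit [DecidableEq ι] in
/-- K4 -/
lemma sigl_div_mem {T : NF (ι ⊕ Bool)} {l l' : ι ⊕ Bool} (h' : l' ∈ T.1) :
    sigl D.sig l / sigl D.sig l' ∈ D.AX T := by
  rw [sigl_eq, sigl_eq]
  exact (D.R_le_ch l').trans (le_cechRing D.ch T h') (D.sig_mem _ _)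

omit [DecidableEq ι] in
/-- K4 -/
lemma genl_div_mem {T : NF (ι ⊕ Bool)} {l l' : ι ⊕ Bool} (h : l ∈ T.1) (h' : l' ∈ T.1) :
    genl D.g D.g0 D.g1 l / genl D.g D.g0 D.g1 l' ∈ D.AX T := by
  have e : genl D.g D.g0 D.g1 l / genl D.g D.g0 D.g1 l' =
      (genl D.g D.g0 D.g1 l * sigl D.sig l ^ D.m) / (genl D.g D.g0 D.g1 l' * sigl D.sig l' ^ D.m) *
        (sigl D.sig l' / sigl D.sig l) ^ D.m := by
    have h1 := D.genl_ne l'
    have h2 := D.sigl_ne l
    have h3 := D.sigl_ne l'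
    rw [div_pow]
    field_simp
  rw [e]
  exact (D.AX T).mul_mem (le_cechRing D.ch T h' (D.gl l l'))
    ((D.AX T).pow_mem (D.sigl_div_mem h) _)

/-- the generator of an open set, for any member -/
lemma genX_div_mem {T : NF (ι ⊕ Bool)} {l : ι ⊕ Bool} (h : l ∈ T.1) :
    genl D.g D.g0 D.g1 l / D.genX T ∈ D.AX T ∧ D.genX T / genl D.g D.g0 D.g1 l ∈ D.AX T := by
  have key : ∃ l', l' ∈ T.1 ∧ D.genX T = genl D.g D.g0 D.g1 l' := by
    unfold genX
    split_ifs with h0 h1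
    · exact ⟨_, h0, rfl⟩
    · exact ⟨_, h1, rfl⟩
    · exact ⟨_, T.pick_mem, rfl⟩
  obtain ⟨l', hl', e⟩ := key
  rw [e]
  exact ⟨D.genl_div_mem h hl', D.genl_div_mem hl' h⟩

end FlopData

end BadRed
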