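import Pool.Agent.Lib.MP_55c1e7_ag.L2.Part

/-!
# Box L2: the remaining fields of the two-chart system of flop data
-/

set_option autoImplicit false

open CategoryTheory CategoryTheory.Limits AlgebraicGeometry

namespace BadRed

open Ch

section comb

variable {ι : Type} [DecidableEq ι]

lemma prX_mono : Monotone (prX : NF (ι ⊕ Bool) → NF (Option ι)) := fun _ _ h =>
  Finset.image_subset_image h

lemma sX_mono (e : Ch) : Monotone (sX e : NF (Option ι) → NF (ι ⊕ Bool)) := by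
  intro J J' h l hl
  cases l with
  | inl i => exact mem_sX_inl.mpr (h (mem_sX_inl.mp hl))
  | inr b => exact mem_sX_inr.mpr ⟨h (mem_sX_inr.mp hl).1, (mem_sX_inr.mp hl).2⟩

lemma sX_le_c01 (e : Ch) (J : NF (Option ι)) : sX e J ≤ sX c01 J := by
  intro l hl
  cases l with
  | inl i => exact mem_sX_inl.mpr (mem_sX_inl.mp hl)
  | inr b => exact mem_sX_inr.mpr ⟨(mem_sX_inr.mp hl).1, trivial⟩

lemma exists_okC (e : Ch) : ∃ b, okC e b := by
  cases e
  · exact ⟨false, rfl⟩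
  · exact ⟨true, rfl⟩
  · exact ⟨true, trivial⟩

lemma prX_sX (e : Ch) (J : NF (Option ι)) : prX (sX e J) = J := by
  apply Subtype.ext
  ext o
  cases o with
  | none =>
    rw [mem_prX_none]
    constructor
    · rintro ⟨b, hb⟩; exact (mem_sX_inr.mp hb).1
    · intro h
      obtain ⟨b, hb⟩ := exists_okC e
      exact ⟨b, mem_sX_inr.mpr ⟨h, hb⟩⟩
  | some i => rw [mem_prX_some, mem_sX_inl]

lemma sX_prX (S : NF (ι ⊕ Bool)) : ∃ e, sX e (prX S) = S := by
  by_cases h0 : Sum.inr false ∈ S.1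
  · have hn : none ∈ (prX S).1 := mem_prX_none.mpr ⟨_, h0⟩
    by_cases h1 : Sum.inr true ∈ S.1
    · refine ⟨c01, Subtype.ext ?_⟩
      ext l
      cases l with
      | inl i => rw [mem_sX_inl, mem_prX_some]
      | inr b =>
        rw [mem_sX_inr]
        cases b with
        | false => exact ⟨fun _ => h0, fun _ => ⟨hn, trivial⟩⟩
        | true => exact ⟨fun _ => h1, fun _ => ⟨hn, trivial⟩⟩
    · refine ⟨c0, Subtype.ext ?_⟩
      ext l
      cases l with
      | inl i => rw [mem_sX_inl, mem_prX_some]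
      | inr b =>
        rw [mem_sX_inr, okC_c0]
        cases b with
        | false => exact ⟨fun _ => h0, fun _ => ⟨hn, rfl⟩⟩
        | true => exact ⟨fun h => absurd h.2 (by simp), fun h => absurd h h1⟩
  · by_cases h1 : Sum.inr true ∈ S.1
    · have hn : none ∈ (prX S).1 := mem_prX_none.mpr ⟨_, h1⟩
      refine ⟨c1, Subtype.ext ?_⟩
      ext l
      cases l with
      | inl i => rw [mem_sX_inl, mem_prX_some]
      | inr b =>
        rw [mem_sX_inr, okC_c1]
        cases b with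
        | false => exact ⟨fun h => absurd h.2 (by simp), fun h => absurd h h0⟩
        | true => exact ⟨fun _ => h1, fun _ => ⟨hn, rfl⟩⟩
    · have hn : none ∉ (prX S).1 := by
        rw [mem_prX_none]
        rintro ⟨b, hb⟩
        cases b with
        | false => exact h0 hb
        | true => exact h1 hb
      refine ⟨c0, Subtype.ext ?_⟩
      ext l
      cases l with
      | inl i => rw [mem_sX_inl, mem_prX_some]
      | inr b =>
        rw [mem_sX_inr]
        constructor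
        · exact fun h => absurd h.1 hn
        · intro h
          cases b with
          | false => exact absurd h h0
          | true => exact absurd h h1

lemma mem_c0 {J : NF (Option ι)} (h : none ∈ J.1) :
    (Sum.inr false : ι ⊕ Bool) ∈ (sX c0 J).1 := mem_sX_inr.mpr ⟨h, by rw [okC_c0]⟩

lemma mem_c1 {J : NF (Option ι)} (h : none ∈ J.1) :
    (Sum.inr true : ι ⊕ Bool) ∈ (sX c1 J).1 := mem_sX_inr.mpr ⟨h, by rw [okC_c1]⟩

/-- over a non-special open set the three kinds agree -/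
lemma sX_eq {J : NF (Option ι)} (h : none ∉ J.1) (e e' : Ch) : sX e J = sX e' J := by
  apply Subtype.ext
  ext l
  cases l with
  | inl i => rw [mem_sX_inl, mem_sX_inl]
  | inr b =>
    rw [mem_sX_inr, mem_sX_inr]
    exact ⟨fun h' => absurd h'.1 h, fun h' => absurd h'.1 h⟩

end comb

variable {k K : Type} [Field k] [Field K] [Algebra k K] {ι : Type}

namespace FlopData

variable (D : FlopData k K ι)

lemma genX_cart [DecidableEq ι] {S T : NF (ι ⊕ Bool)} (h : S ≤ T) :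
    D.genX S / D.genX T ∈ D.AX T ∧ D.genX T / D.genX S ∈ D.AX T := by
  obtain ⟨l, hl, e⟩ := D.exists_genX S
  rw [e]
  exact D.genX_div_mem (h hl)

variable [DecidableEq ι]

lemma genX_c0 {J : NF (Option ι)} (h : none ∈ J.1) : D.genX (sX c0 J) = D.g0 := by
  unfold genX
  rw [if_pos (mem_c0 h)]

lemma genX_c1 {J : NF (Option ι)} (h : none ∈ J.1) : D.genX (sX c1 J) = D.g1 := by
  unfold genX
  rw [if_neg (fun h' => by simpa using (mem_sX_inr.mp h').2), if_pos (mem_c1 h)]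

lemma g10_mem {J : NF (Option ι)} (h : none ∈ J.1) : D.g1 / D.g0 ∈ D.AX (sX c0 J) :=
  le_cechRing D.ch _ (mem_c0 h)
    ((le_sup_right : Algebra.adjoin k {D.g1 / D.g0} ≤ D.ch (Sum.inr false))
      (Algebra.subset_adjoin (Set.mem_singleton _)))

lemma g01_mem {J : NF (Option ι)} (h : none ∈ J.1) : D.g0 / D.g1 ∈ D.AX (sX c1 J) :=
  le_cechRing D.ch _ (mem_c1 h)
    ((le_sup_right : Algebra.adjoin k {D.g0 / D.g1} ≤ D.ch (Sum.inr true))
      (Algebra.subset_adjoin (Set.mem_singleton _)))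

lemma u_mem' (J : NF (Option ι)) : D.genX (sX c1 J) / D.genX (sX c0 J) ∈ D.AX (sX c0 J) := by
  by_cases h : none ∈ J.1
  · rw [D.genX_c0 h, D.genX_c1 h]; exact D.g10_mem h
  · rw [sX_eq h c1 c0, div_self (D.genX_ne _)]; exact (D.AX _).one_mem

lemma u_inv_mem' (J : NF (Option ι)) : D.genX (sX c0 J) / D.genX (sX c1 J) ∈ D.AX (sX c1 J) := by
  by_cases h : none ∈ J.1
  · rw [D.genX_c0 h, D.genX_c1 h]; exact D.g01_mem h
  · rw [sX_eq h c1 c0, div_self (D.genX_ne _)]; exact (D.AX _).one_mem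

lemma adj0' (J : NF (Option ι)) : D.AX (sX c0 J) ≤
    D.RZ J ⊔ Algebra.adjoin k {D.genX (sX c1 J) / D.genX (sX c0 J)} := by
  by_cases h : none ∈ J.1
  · rw [D.genX_c0 h, D.genX_c1 h]
    refine iSup₂_le fun l hl => ?_
    cases l with
    | inl i => exact (le_cechRing D.R J (mem_sX_inl.mp hl)).trans le_sup_left
    | inr b =>
      have hb := (mem_sX_inr.mp hl).2
      rw [okC_c0] at hb
      subst hb
      exact sup_le_sup_right (le_cechRing D.R J h) _
  · rw [D.AX_eq_RZ _ h]; exact le_sup_left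

lemma adj1' (J : NF (Option ι)) : D.AX (sX c1 J) ≤
    D.RZ J ⊔ Algebra.adjoin k {D.genX (sX c0 J) / D.genX (sX c1 J)} := by
  by_cases h : none ∈ J.1
  · rw [D.genX_c0 h, D.genX_c1 h]
    refine iSup₂_le fun l hl => ?_
    cases l with
    | inl i => exact (le_cechRing D.R J (mem_sX_inl.mp hl)).trans le_sup_left
    | inr b =>
      have hb := (mem_sX_inr.mp hl).2
      rw [okC_c1] at hb
      subst hb
      exact sup_le_sup_right (le_cechRing D.R J h) _
  · rw [D.AX_eq_RZ _ h]; exact le_sup_left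

lemma loc_aux {J : NF (Option ι)} {e : Ch} {u : K} (hu : u ∈ D.AX (sX e J))
    (hB : none ∈ J.1 → ∀ b, D.ch (Sum.inr b) ≤ locSub (D.AX (sX e J)) u hu) :
    D.AX (sX c01 J) ≤ locSub (D.AX (sX e J)) u hu := by
  refine iSup₂_le fun l hl => ?_
  cases l with
  | inl i =>
    exact (le_cechRing D.ch _ (mem_sX_inl.mpr (mem_sX_inl.mp hl))).trans (le_locSub _)
  | inr b => exact hB (mem_sX_inr.mp hl).1 b

lemma loc0' (J : NF (Option ι)) {f : K} (hf : f ∈ D.AX (sX c01 J)) :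
    ∃ n : ℕ, (D.genX (sX c1 J) / D.genX (sX c0 J)) ^ n * f ∈ D.AX (sX c0 J) := by
  refine (D.loc_aux (D.u_mem' J) ?_) hf
  intro h b
  cases b with
  | false => exact (le_cechRing D.ch _ (mem_c0 h)).trans (le_locSub _)
  | true =>
    refine sup_le ((le_cechRing D.R J h).trans ((D.RZ_le c0 J).trans (le_locSub _))) ?_
    rw [Algebra.adjoin_le_iff]
    intro y hy
    rw [Set.mem_singleton_iff.mp hy]
    refine ⟨1, ?_⟩
    have h0 := D.g0_ne
    have h1 := D.g1_ne
    rw [D.genX_c0 h, D.genX_c1 h, pow_one, div_mul_div_comm, mul_comm D.g1 D.g0,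
      div_self (mul_ne_zero h0 h1)]
    exact (D.AX _).one_mem

lemma loc1' (J : NF (Option ι)) {f : K} (hf : f ∈ D.AX (sX c01 J)) :
    ∃ n : ℕ, (D.genX (sX c0 J) / D.genX (sX c1 J)) ^ n * f ∈ D.AX (sX c1 J) := by
  refine (D.loc_aux (D.u_inv_mem' J) ?_) hf
  intro h b
  cases b with
  | true => exact (le_cechRing D.ch _ (mem_c1 h)).trans (le_locSub _)
  | false =>
    refine sup_le ((le_cechRing D.R J h).trans ((D.RZ_le c1 J).trans (le_locSub _))) ?_
    rw [Algebra.adjoin_le_iff]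
    intro y hy
    rw [Set.mem_singleton_iff.mp hy]
    refine ⟨1, ?_⟩
    have h0 := D.g0_ne
    have h1 := D.g1_ne
    rw [D.genX_c0 h, D.genX_c1 h, pow_one, div_mul_div_comm, mul_comm D.g0 D.g1,
      div_self (mul_ne_zero h1 h0)]
    exact (D.AX _).one_mem

omit [DecidableEq ι] in
lemma denR' {J J' : NF (Option ι)} (h : J ≤ J') {f : K} (hf : f ∈ D.RZ J') :
    ∃ h ∈ D.RZ J, h ≠ 0 ∧ h⁻¹ ∈ D.RZ J' ∧ h * f ∈ D.RZ J := by
  obtain ⟨n, hn⟩ := (D.mem_RZ_iff (h J.pick_mem)).mp hf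
  refine ⟨D.P J.pick J' ^ n, ?_, pow_ne_zero _ (D.P_ne _ _), ?_, ?_⟩
  · exact le_cechRing D.R J J.pick_mem ((D.R _).pow_mem (D.P_mem _ _) _)
  · rw [← inv_pow]; exact (D.RZ J').pow_mem (D.P_inv_mem _ _) _
  · exact le_cechRing D.R J J.pick_mem hn

lemma den' {J J' : NF (Option ι)} (h : J ≤ J') (hs : none ∈ J'.1 → none ∈ J.1) (e : Ch) {f : K}
    (hf : f ∈ D.AX (sX e J')) :
    ∃ h ∈ D.RZ J, h ≠ 0 ∧ h⁻¹ ∈ D.RZ J' ∧ h * f ∈ D.AX (sX e J) := by
  by_cases hn : none ∈ J'.1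
  · obtain ⟨n, hn'⟩ := (D.mem_AX_iff e hn).mp hf
    refine ⟨D.P none J' ^ n, ?_, pow_ne_zero _ (D.P_ne _ _), ?_, D.B_le e (hs hn) hn'⟩
    · exact le_cechRing D.R J (hs hn) ((D.R _).pow_mem (D.P_mem _ _) _)
    · rw [← inv_pow]; exact (D.RZ J').pow_mem (D.P_inv_mem _ _) _
  · rw [D.AX_eq_RZ _ hn] at hf
    obtain ⟨q, h1, h2, h3, h4⟩ := D.denR' h hf
    exact ⟨q, h1, h2, h3, D.RZ_le e J h4⟩

omit [DecidableEq ι] in
/-- ratios of members of a chart -/
lemma ch_le_locSub2 {S T : NF (ι ⊕ Bool)} {l0 l : ι ⊕ Bool} (h0 : l0 ∈ S.1) (hl : l ∈ T.1) :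
    D.ch l ≤ locSub2 (D.AX S) (D.AX T) 1 (D.AX S).one_mem := by
  have hR : D.R (prC l) ≤ locSub2 (D.AX S) (D.AX T) 1 (D.AX S).one_mem := by
    intro f hf
    obtain ⟨n, hn⟩ := D.loc (prC l0) (prC l) f hf
    refine ⟨0, (D.sig (prC l) / D.sig (prC l0)) ^ n, ?_, ?_, ?_, ?_⟩
    · exact (D.AX S).pow_mem (le_cechRing D.ch S h0 (D.R_le_ch l0 (D.sig_mem _ _))) _
    · exact pow_ne_zero _ (div_ne_zero (D.sig_ne _) (D.sig_ne _))
    · rw [← inv_pow, inv_div]
      exact (D.AX T).pow_mem (le_cechRing D.ch T hl (D.R_le_ch l (D.sig_mem _ _))) _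
    · rw [pow_zero, mul_one]
      exact le_cechRing D.ch S h0 (D.R_le_ch l0 hn)
  have hadj : ∀ (b : Bool) (x : K), l = Sum.inr b → D.eta (Sum.inr b) * x ∈ Set.range D.eta →
      Algebra.adjoin k {x} ≤ locSub2 (D.AX S) (D.AX T) 1 (D.AX S).one_mem := by
    rintro b x rfl ⟨l', hl'⟩
    rw [Algebra.adjoin_le_iff]
    intro y hy
    rw [Set.mem_singleton_iff.mp hy]
    refine ⟨0, D.eta (Sum.inr b) / D.eta l0, le_cechRing D.ch S h0 (D.gl _ _),
      div_ne_zero (D.eta_ne _) (D.eta_ne _), ?_, ?_⟩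
    · rw [inv_div]; exact le_cechRing D.ch T hl (D.gl _ _)
    · rw [pow_zero, mul_one, div_mul_eq_mul_div, ← hl']
      exact le_cechRing D.ch S h0 (D.gl _ _)
  have g0n := D.g0_ne
  have g1n := D.g1_ne
  rcases l with i | b
  · exact hR
  · cases b with
    | false =>
      refine sup_le hR (hadj false _ rfl ⟨Sum.inr true, ?_⟩)
      change D.g1 * D.sig none ^ D.m = D.g0 * D.sig none ^ D.m * (D.g1 / D.g0)
      field_simp
    | true =>
      refine sup_le hR (hadj true _ rfl ⟨Sum.inr false, ?_⟩)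
      change D.g0 * D.sig none ^ D.m = D.g1 * D.sig none ^ D.m * (D.g0 / D.g1)
      field_simp

omit [DecidableEq ι] in
lemma denX' {S T : NF (ι ⊕ Bool)} {f : K} (hf : f ∈ D.AX T) :
    ∃ h ∈ D.AX S, h ≠ 0 ∧ h⁻¹ ∈ D.AX T ∧ h * f ∈ D.AX S := by
  have key : D.AX T ≤ locSub2 (D.AX S) (D.AX T) 1 (D.AX S).one_mem :=
    iSup₂_le fun l hl => D.ch_le_locSub2 S.pick_mem hl
  obtain ⟨n, h, hA, h0, hB, hh⟩ := key hf
  rw [one_pow, mul_one] at hh
  exact ⟨h, hA, h0, hB, hh⟩

/-- The two-chart system of flop data. -/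
noncomputable def sys : TCSys k K (NF (ι ⊕ Bool)) (NF (Option ι)) (Option ι) (ι ⊕ Bool) where
  A := D.AX
  mono := cechRing_mono D.ch
  noeth S := noeth_of_fg (cechRing_fg D.ch D.ch_fg S)
  denX _ _ hf := D.denX' hf
  pr := prX
  pr_mono := prX_mono
  s := sX
  s_mono := sX_mono
  le0 := sX_le_c01 c0
  le1 := sX_le_c01 c1
  pr_s := prX_sX
  s_pr := sX_prX
  R := D.RZ
  R_eq J := (D.AX_inf J).symm
  noethR J := noeth_of_fg (cechRing_fg D.R D.fg J)
  gen := D.genX
  gen_ne := D.genX_ne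
  cart := D.genX_cart
  u_mem := D.u_mem'
  u_inv_mem := D.u_inv_mem'
  adj0 := D.adj0'
  adj1 := D.adj1'
  loc0 J _ hf := D.loc0' J hf
  loc1 J _ hf := D.loc1' J hf
  special J := none ∈ J.1
  special_mono h h' := h h'
  degen _ h := ⟨(sX_eq h c01 c0).le, (sX_eq h c01 c1).le⟩
  denR h _ hf := D.denR' h hf
  den h hs e _ hf := D.den' h hs e hf
  part h h1 h2 := D.exists_part h h1 h2
  pt := NF.single
  sig := D.sigZ
  sig_ne := D.sigZ_ne
  sig_cart := D.sigZ_cart
  cover := single_pick_le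
  sig_mem := D.sigZ_mem
  sig_loc J i _ hf := D.sigZ_loc J i hf
  m := D.m
  eta := D.eta
  eta_mem := D.eta_mem
  eta_cov := D.eta_cov

end FlopData

end BadRed
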