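import Pool.Agent.Lib.MP_55c1e7_ag.L2.Defs

/-!
# Box L2: the fields `sig`, `eta`, `part` of the two-chart system of flop data
-/

set_option autoImplicit false

open CategoryTheory CategoryTheory.Limits AlgebraicGeometry

namespace BadRed

section locSub2

variable {k K : Type} [Field k] [Field K] [Algebra k K]

/-- The localisation of `A` at the powers of `t` and at the elements `h` of `A` with inverse
in `B`. -/
def locSub2 (A B : Subalgebra k K) (t : K) (ht : t ∈ A) : Subalgebra k K where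
  carrier := {f | ∃ n : ℕ, ∃ h ∈ A, h ≠ 0 ∧ h⁻¹ ∈ B ∧ h * t ^ n * f ∈ A}
  mul_mem' := by
    rintro a b ⟨n, h, hA, h0, hB, ha⟩ ⟨m, h', hA', h0', hB', hb⟩
    refine ⟨n + m, h * h', A.mul_mem hA hA', mul_ne_zero h0 h0', ?_, ?_⟩
    · rw [mul_inv]; exact B.mul_mem hB hB'
    · rw [pow_add, show h * h' * (t ^ n * t ^ m) * (a * b) =
        (h * t ^ n * a) * (h' * t ^ m * b) by ring]
      exact A.mul_mem ha hb
  add_mem' := by
    rintro a b ⟨n, h, hA, h0, hB, ha⟩ ⟨m, h', hA', h0', hB', hb⟩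
    refine ⟨n + m, h * h', A.mul_mem hA hA', mul_ne_zero h0 h0', ?_, ?_⟩
    · rw [mul_inv]; exact B.mul_mem hB hB'
    · rw [pow_add, show h * h' * (t ^ n * t ^ m) * (a + b) =
        (h' * t ^ m) * (h * t ^ n * a) + (h * t ^ n) * (h' * t ^ m * b) by ring]
      exact A.add_mem (A.mul_mem (A.mul_mem hA' (A.pow_mem ht _)) ha)
        (A.mul_mem (A.mul_mem hA (A.pow_mem ht _)) hb)
  algebraMap_mem' := fun c => ⟨0, 1, A.one_mem, one_ne_zero, by
    rw [inv_one]; exact B.one_mem, by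
    rw [pow_zero, one_mul, one_mul]; exact A.algebraMap_mem c⟩

lemma mem_locSub2 {A B : Subalgebra k K} {t : K} {ht : t ∈ A} {f : K} :
    f ∈ locSub2 A B t ht ↔ ∃ n : ℕ, ∃ h ∈ A, h ≠ 0 ∧ h⁻¹ ∈ B ∧ h * t ^ n * f ∈ A := Iff.rfl

end locSub2

variable {k K : Type} [Field k] [Field K] [Algebra k K] {ι : Type}

namespace FlopData

variable (D : FlopData k K ι)

/-! ## The fields `sig` -/

lemma sigZ_ne (J : NF (Option ι)) : D.sigZ J ≠ 0 := D.sig_ne _

lemma sigZ_single (o : Option ι) : D.sigZ (NF.single o) = D.sig o := by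
  rw [sigZ, NF.pick_single]

lemma sigZ_cart {J J' : NF (Option ι)} (h : J ≤ J') :
    D.sigZ J / D.sigZ J' ∈ D.RZ J' ∧ D.sigZ J' / D.sigZ J ∈ D.RZ J' :=
  ⟨D.sig_div_mem J'.pick_mem, D.sig_div_mem (h J.pick_mem)⟩

lemma single_pick_le (J : NF (Option ι)) : ∃ i, NF.single i ≤ J :=
  ⟨J.pick, by
    intro x hx
    rw [Finset.mem_singleton.mp hx]
    exact J.pick_mem⟩

lemma sigZ_mem (J : NF (Option ι)) (i : Option ι) : D.sigZ (NF.single i) / D.sigZ J ∈ D.RZ J := by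
  rw [sigZ_single]; exact D.sig_div_mem J.pick_mem

lemma sigZ_loc [DecidableEq ι] (J : NF (Option ι)) (i : Option ι) {f : K}
    (hf : f ∈ D.RZ (J ⊔ NF.single i)) :
    ∃ n : ℕ, (D.sigZ (NF.single i) / D.sigZ J) ^ n * f ∈ D.RZ J := by
  have key : D.RZ (J ⊔ NF.single i) ≤
      locSub (D.RZ J) (D.sigZ (NF.single i) / D.sigZ J) (D.sigZ_mem J i) := by
    refine iSup₂_le fun o ho => ?_
    rcases Finset.mem_union.mp (show o ∈ J.1 ∪ (NF.single i).1 from ho) with h | h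
    · exact (le_cechRing D.R J h).trans (le_locSub _)
    · rw [Finset.mem_singleton.mp h]
      intro g hg
      obtain ⟨n, hn⟩ := D.loc J.pick i g hg
      refine ⟨n, ?_⟩
      rw [sigZ_single]
      exact le_cechRing D.R J J.pick_mem hn
  exact key hf

/-! ## The fields `eta` -/

/-- global sections of `L ⊗ M^m` -/
def eta (l : ι ⊕ Bool) : K := genl D.g D.g0 D.g1 l * sigl D.sig l ^ D.m

lemma eta_ne (l : ι ⊕ Bool) : D.eta l ≠ 0 := mul_ne_zero (D.genl_ne l) (pow_ne_zero _ (D.sigl_ne l))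

lemma exists_genX (S : NF (ι ⊕ Bool)) : ∃ l ∈ S.1, D.genX S = genl D.g D.g0 D.g1 l := by
  unfold genX
  split_ifs with h0 h1
  · exact ⟨_, h0, rfl⟩
  · exact ⟨_, h1, rfl⟩
  · exact ⟨_, S.pick_mem, rfl⟩

lemma genX_ne (S : NF (ι ⊕ Bool)) : D.genX S ≠ 0 := by
  obtain ⟨l, -, e⟩ := D.exists_genX S
  rw [e]; exact D.genl_ne l

lemma eta_mem [DecidableEq ι] (l : ι ⊕ Bool) (S : NF (ι ⊕ Bool)) :
    D.eta l / (D.genX S * D.sigZ (prX S) ^ D.m) ∈ D.AX S := by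
  obtain ⟨l', hl', e⟩ := D.exists_genX S
  rw [e]
  have h1 : D.eta l / D.eta l' ∈ D.AX S := le_cechRing D.ch S hl' (D.gl l l')
  have h2 : sigl D.sig l' / D.sigZ (prX S) ∈ D.AX S := by
    rw [sigl_eq]
    exact D.RZ_prX_le S (D.sig_div_mem (prX S).pick_mem)
  have e2 : D.eta l / (genl D.g D.g0 D.g1 l' * D.sigZ (prX S) ^ D.m) =
      D.eta l / D.eta l' * (sigl D.sig l' / D.sigZ (prX S)) ^ D.m := by
    have h3 := D.genl_ne l'
    have h4 := D.sigl_ne l'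
    have h5 := D.sigZ_ne (prX S)
    rw [div_pow]
    change D.eta l / (genl D.g D.g0 D.g1 l' * D.sigZ (prX S) ^ D.m) =
      D.eta l / (genl D.g D.g0 D.g1 l' * sigl D.sig l' ^ D.m) *
        (sigl D.sig l' ^ D.m / D.sigZ (prX S) ^ D.m)
    field_simp
  rw [e2]
  exact (D.AX S).mul_mem h1 ((D.AX S).pow_mem h2 _)

lemma eta_cov [DecidableEq ι] (S : NF (ι ⊕ Bool)) :
    ∃ l, D.eta l ≠ 0 ∧ D.genX S * D.sigZ (prX S) ^ D.m / D.eta l ∈ D.AX S := by
  obtain ⟨l', hl', e⟩ := D.exists_genX S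
  refine ⟨l', D.eta_ne l', ?_⟩
  have h2 : D.sigZ (prX S) / sigl D.sig l' ∈ D.AX S := by
    rw [sigl_eq]
    exact D.RZ_prX_le S (D.sig_div_mem (prC_mem_prX hl'))
  have e2 : D.genX S * D.sigZ (prX S) ^ D.m / D.eta l' =
      (D.sigZ (prX S) / sigl D.sig l') ^ D.m := by
    have h3 := D.genl_ne l'
    have h4 := D.sigl_ne l'
    rw [div_pow, e]
    change genl D.g D.g0 D.g1 l' * D.sigZ (prX S) ^ D.m /
      (genl D.g D.g0 D.g1 l' * sigl D.sig l' ^ D.m) = _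
    field_simp
  rw [e2]
  exact (D.AX S).pow_mem h2 _

/-! ## The field `part` -/

/-- the section `eta l`, compared with the generator `eta (inl i)` -/
lemma tq_mem {J : NF (Option ι)} {i : ι} (hi : some i ∈ J.1) (l : ι ⊕ Bool) :
    D.eta l / D.eta (Sum.inl i) ∈ D.RZ J := le_cechRing D.R J hi (D.gl l (Sum.inl i))

lemma part_aux [DecidableEq ι] {J J' : NF (Option ι)} (h : J ≤ J') {i : ι} (hi : some i ∈ J.1)
    {e : Ch} {t : K} (ht : t ∈ D.RZ J) (hB : ∀ b, okC e b → D.ch (Sum.inr b) ≤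
      locSub2 (D.RZ J) (D.RZ J') t ht) : D.AX (sX e J') ≤ locSub2 (D.RZ J) (D.RZ J') t ht := by
  refine iSup₂_le fun l hl => ?_
  cases l with
  | inl j =>
    intro f hf
    obtain ⟨n, hn⟩ := D.loc (some i) (some j) f hf
    refine ⟨0, (D.sig (some j) / D.sig (some i)) ^ n, ?_, ?_, ?_, ?_⟩
    · exact (D.RZ J).pow_mem (D.sig_div_mem hi) _
    · exact pow_ne_zero _ (div_ne_zero (D.sig_ne _) (D.sig_ne _))
    · rw [← inv_pow, inv_div]
      exact (D.RZ J').pow_mem (D.sig_div_mem (mem_sX_inl.mp hl)) _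
    · rw [pow_zero, mul_one]
      exact le_cechRing D.R J hi hn
  | inr b => exact hB b (mem_sX_inr.mp hl).2

lemma R_none_le [DecidableEq ι] {J J' : NF (Option ι)} {i : ι} (hi : some i ∈ J.1)
    (hn : none ∈ J'.1) {t : K} (ht : t ∈ D.RZ J) :
    D.R none ≤ locSub2 (D.RZ J) (D.RZ J') t ht := by
  intro f hf
  obtain ⟨n, hn'⟩ := D.loc (some i) none f hf
  refine ⟨0, (D.sig none / D.sig (some i)) ^ n, ?_, ?_, ?_, ?_⟩
  · exact (D.RZ J).pow_mem (D.sig_div_mem hi) _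
  · exact pow_ne_zero _ (div_ne_zero (D.sig_ne _) (D.sig_ne _))
  · rw [← inv_pow, inv_div]
    exact (D.RZ J').pow_mem (D.sig_div_mem hn) _
  · rw [pow_zero, mul_one]
    exact le_cechRing D.R J hi hn'

lemma adj_le {J J' : NF (Option ι)} {t : K} (ht : t ∈ D.RZ J) {x : K}
    (hx : t * x ∈ D.RZ J) : Algebra.adjoin k {x} ≤ locSub2 (D.RZ J) (D.RZ J') t ht := by
  rw [Algebra.adjoin_le_iff]
  intro y hy
  rw [Set.mem_singleton_iff.mp hy]
  exact ⟨1, 1, (D.RZ J).one_mem, one_ne_zero, by rw [inv_one]; exact (D.RZ J').one_mem, by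
    rw [one_mul, pow_one]; exact hx⟩

lemma exists_part [DecidableEq ι] {J J' : NF (Option ι)} (h : J ≤ J') (hJ : none ∉ J.1)
    (hJ' : none ∈ J'.1) : ∃ t0 ∈ D.RZ J, ∃ t1 ∈ D.RZ J,
    t0 ≠ 0 ∧ t1 ≠ 0 ∧ t0⁻¹ ∈ D.AX (sX Ch.c0 J') ∧ t1⁻¹ ∈ D.AX (sX Ch.c1 J') ∧
    (∀ f ∈ D.AX (sX Ch.c0 J'), ∃ n : ℕ, ∃ h ∈ D.RZ J, h ≠ 0 ∧ h⁻¹ ∈ D.RZ J' ∧
      h * t0 ^ n * f ∈ D.RZ J) ∧
    (∀ f ∈ D.AX (sX Ch.c1 J'), ∃ n : ℕ, ∃ h ∈ D.RZ J, h ≠ 0 ∧ h⁻¹ ∈ D.RZ J' ∧
      h * t1 ^ n * f ∈ D.RZ J) ∧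
    (∀ f ∈ D.AX (sX Ch.c01 J'), ∃ n : ℕ, ∃ h ∈ D.RZ J, h ≠ 0 ∧ h⁻¹ ∈ D.RZ J' ∧
      h * (t0 * t1) ^ n * f ∈ D.RZ J) ∧
    ∃ a0 ∈ D.RZ J', ∃ a1 ∈ D.RZ J', a0 * t0 + a1 * t1 = 1 := by
  obtain ⟨i, hi⟩ : ∃ i, some i ∈ J.1 := by
    have := J.pick_mem
    cases hp : J.pick with
    | none => rw [hp] at this; exact absurd this hJ
    | some i => rw [hp] at this; exact ⟨i, this⟩
  have hi' : some i ∈ J'.1 := h hi
  have t0m := D.tq_mem hi (Sum.inr false)
  have t1m := D.tq_mem hi (Sum.inr true)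
  have n0 := D.eta_ne (Sum.inr false)
  have n1 := D.eta_ne (Sum.inr true)
  have ni := D.eta_ne (Sum.inl i)
  have g0n := D.g0_ne
  have g1n := D.g1_ne
  have gin := D.g_ne i
  have sn := D.sig_ne none
  have si := D.sig_ne (some i)
  have e01 : D.eta (Sum.inr false) / D.eta (Sum.inl i) * (D.g1 / D.g0) =
      D.eta (Sum.inr true) / D.eta (Sum.inl i) := by
    have e : D.eta (Sum.inr false) * (D.g1 / D.g0) = D.eta (Sum.inr true) := by
      change D.g0 * D.sig none ^ D.m * (D.g1 / D.g0) = D.g1 * D.sig none ^ D.m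
      field_simp
    rw [div_mul_eq_mul_div, e]
  have e10 : D.eta (Sum.inr true) / D.eta (Sum.inl i) * (D.g0 / D.g1) =
      D.eta (Sum.inr false) / D.eta (Sum.inl i) := by
    have e : D.eta (Sum.inr true) * (D.g0 / D.g1) = D.eta (Sum.inr false) := by
      change D.g1 * D.sig none ^ D.m * (D.g0 / D.g1) = D.g0 * D.sig none ^ D.m
      field_simp
    rw [div_mul_eq_mul_div, e]
  refine ⟨_, t0m, _, t1m, div_ne_zero n0 ni, div_ne_zero n1 ni, ?_, ?_, ?_, ?_, ?_, ?_⟩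
  · rw [inv_div]
    exact le_cechRing D.ch (sX Ch.c0 J') (mem_sX_inr.mpr ⟨hJ', rfl⟩) (D.gl _ _)
  · rw [inv_div]
    exact le_cechRing D.ch (sX Ch.c1 J') (mem_sX_inr.mpr ⟨hJ', rfl⟩) (D.gl _ _)
  · have key := D.part_aux h hi (e := Ch.c0) t0m (by
      rintro b hb
      rw [okC_c0] at hb
      subst hb
      refine sup_le (D.R_none_le hi hJ' t0m) (D.adj_le t0m ?_)
      rw [e01]; exact t1m)
    exact fun f hf => key hf
  · have key := D.part_aux h hi (e := Ch.c1) t1m (by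
      rintro b hb
      rw [okC_c1] at hb
      subst hb
      refine sup_le (D.R_none_le hi hJ' t1m) (D.adj_le t1m ?_)
      rw [e10]; exact t0m)
    exact fun f hf => key hf
  · have key := D.part_aux h hi (e := Ch.c01) ((D.RZ J).mul_mem t0m t1m) (by
      rintro b -
      cases b with
      | false =>
        refine sup_le (D.R_none_le hi hJ' _) (D.adj_le _ ?_)
        rw [mul_right_comm, e01]
        exact (D.RZ J).mul_mem t1m t1m
      | true =>
        refine sup_le (D.R_none_le hi hJ' _) (D.adj_le _ ?_)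
        rw [mul_assoc, e10]
        exact (D.RZ J).mul_mem t0m t0m)
    exact fun f hf => key hf
  · obtain ⟨a0, ha0, a1, ha1, hs⟩ := D.part i
    have hle : D.R (some i) ⊔ D.R none ≤ D.RZ J' :=
      sup_le (le_cechRing D.R J' hi') (le_cechRing D.R J' hJ')
    have hq : (D.sig (some i) / D.sig none) ^ D.m ∈ D.RZ J' :=
      (D.RZ J').pow_mem (D.sig_div_mem hJ') _
    refine ⟨a0 * (D.sig (some i) / D.sig none) ^ D.m, (D.RZ J').mul_mem (hle ha0) hq,
      a1 * (D.sig (some i) / D.sig none) ^ D.m, (D.RZ J').mul_mem (hle ha1) hq, ?_⟩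
    change a0 * (D.sig (some i) / D.sig none) ^ D.m *
        (D.g0 * D.sig none ^ D.m / (D.g i * D.sig (some i) ^ D.m)) +
      a1 * (D.sig (some i) / D.sig none) ^ D.m *
        (D.g1 * D.sig none ^ D.m / (D.g i * D.sig (some i) ^ D.m)) = 1
    rw [div_pow]
    have e : ∀ a g : K, a * (D.sig (some i) ^ D.m / D.sig none ^ D.m) *
        (g * D.sig none ^ D.m / (D.g i * D.sig (some i) ^ D.m)) = a * g / D.g i := by
      intro a g
      field_simp
    rw [e, e, ← add_div, hs, div_self gin]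

end FlopData

end BadRed
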