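import Pool.Agent.Lib.MP_55c1e7_ag.L2.Fields

/-!
# Box L2: two flop data with opposite `L` have the same target category
-/

set_option autoImplicit false

open CategoryTheory CategoryTheory.Limits AlgebraicGeometry

namespace BadRed

open Ch

variable {k K : Type} [Field k] [Field K] [Algebra k K] {ι : Type}

lemma pw_inv {A : Subalgebra k K} {g : K} (n : ℤ) : pw A g⁻¹ n = pw A g (-n) := by
  ext f
  rw [mem_pw, mem_pw, inv_zpow', neg_neg]

lemma pw_zero' {A : Subalgebra k K} {g : K} : pw A g 0 = Subalgebra.toSubmodule A := by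
  ext f
  rw [mem_pw_zero, Subalgebra.mem_toSubmodule]

namespace FlopData

section one

variable (D : FlopData k K ι) [DecidableEq ι]

/-- sections of `L^n` over a special open set, as a localisation -/
lemma mem_HH_special (n : ℤ) {J : NF (Option ι)} (h : none ∈ J.1) {f : K} :
    f ∈ D.sys.HH n J ↔ ∃ N : ℕ, D.P none J ^ N * f ∈ D.Ha n := by
  change (f ∈ pw (D.AX (sX c0 J)) (D.genX (sX c0 J)) n ∧
    f ∈ pw (D.AX (sX c1 J)) (D.genX (sX c1 J)) n) ↔ _
  rw [D.genX_c0 h, D.genX_c1 h, mem_pw, mem_pw, D.mem_AX_iff c0 h, D.mem_AX_iff c1 h]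
  constructor
  · rintro ⟨⟨a, ha⟩, ⟨b, hb⟩⟩
    refine ⟨a + b, ?_, ?_⟩
    · change D.P none J ^ (a + b) * f * D.g0 ^ (-n) ∈ D.ch (Sum.inr false)
      rw [pow_add, show D.P none J ^ a * D.P none J ^ b * f * D.g0 ^ (-n) =
        D.P none J ^ b * (D.P none J ^ a * (f * D.g0 ^ (-n))) by ring]
      exact (D.B c0).mul_mem ((D.B c0).pow_mem (D.R_le_B _ (D.P_mem none J)) _) ha
    · change D.P none J ^ (a + b) * f * D.g1 ^ (-n) ∈ D.ch (Sum.inr true)
      rw [pow_add, show D.P none J ^ a * D.P none J ^ b * f * D.g1 ^ (-n) =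
        D.P none J ^ a * (D.P none J ^ b * (f * D.g1 ^ (-n))) by ring]
      exact (D.B c1).mul_mem ((D.B c1).pow_mem (D.R_le_B _ (D.P_mem none J)) _) hb
  · rintro ⟨N, h0, h1⟩
    refine ⟨⟨N, ?_⟩, ⟨N, ?_⟩⟩
    · rw [← mul_assoc]; exact h0
    · rw [← mul_assoc]; exact h1

/-- sections of `L^n` over a non-special open set -/
lemma HH_nonspecial (n : ℤ) {J : NF (Option ι)} (h : none ∉ J.1) :
    D.sys.HH n J = pw (D.RZ J) (D.genX (sX c0 J)) n := by
  change pw (D.AX (sX c0 J)) (D.genX (sX c0 J)) n ⊓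
    pw (D.AX (sX c1 J)) (D.genX (sX c1 J)) n = _
  rw [sX_eq h c1 c0, inf_idem, D.AX_eq_RZ _ h]

omit [DecidableEq ι] in
lemma Ha_zero : D.Ha 0 = Subalgebra.toSubmodule (D.R none) := by
  rw [Ha, pw_zero', pw_zero']
  apply le_antisymm
  · rintro f ⟨h0, h1⟩
    exact D.inter ⟨h0, h1⟩
  · intro f hf
    exact ⟨D.R_le_ch (Sum.inr false) hf, D.R_le_ch (Sum.inr true) hf⟩

/-- the generator over a non-special open set -/
lemma exists_genX_nonspecial {J : NF (Option ι)} (h : none ∉ J.1) :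
    ∃ i, (sX c0 J).pick = Sum.inl i ∧ D.genX (sX c0 J) = D.g i := by
  have hm := (sX c0 J).pick_mem
  cases hp : (sX c0 J).pick with
  | inr b => rw [hp] at hm; exact absurd (mem_sX_inr.mp hm).1 h
  | inl i =>
    refine ⟨i, rfl, ?_⟩
    unfold genX
    rw [if_neg (fun h' => h (mem_sX_inr.mp h').1), if_neg (fun h' => h (mem_sX_inr.mp h').1), hp]
    rfl

end one

variable [DecidableEq ι]

lemma HH_eq (D D' : FlopData k K ι) (hR : D'.R = D.R) (hsig : D'.sig = D.sig)
    (hg : ∀ i, D'.g i = (D.g i)⁻¹) (n n' : ℤ) (hnn : n' = -n) (hn : D'.Ha n' = D.Ha n)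
    (J : NF (Option ι)) : D'.sys.HH n' J = D.sys.HH n J := by
  subst hnn
  by_cases h : none ∈ J.1
  · ext f
    rw [D'.mem_HH_special _ h, D.mem_HH_special _ h, hn]
    change (∃ N : ℕ, dP D'.sig none J ^ N * f ∈ D.Ha n) ↔ _
    rw [hsig]
  · rw [D'.HH_nonspecial _ h, D.HH_nonspecial _ h]
    obtain ⟨i, hi, e⟩ := D.exists_genX_nonspecial h
    obtain ⟨i', hi', e'⟩ := D'.exists_genX_nonspecial h
    rw [hi] at hi'
    have : i = i' := Sum.inl_injective hi'
    subst this
    rw [e, e', hg, pw_inv, neg_neg]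
    change pw (cechRing D'.R J) _ _ = pw (cechRing D.R J) _ _
    rw [hR]

lemma HH_zero_eq (D D' : FlopData k K ι) (hR : D'.R = D.R) (J : NF (Option ι)) :
    D'.sys.HH 0 J = D.sys.HH 0 J := by
  rw [TCSys.HH_zero, TCSys.HH_zero]
  change Subalgebra.toSubmodule (cechRing D'.R J) = Subalgebra.toSubmodule (cechRing D.R J)
  rw [hR]

/-- BOX L2 : flop data give two-chart systems; two flop data with opposite `L` have the same
target category. -/
theorem targ_eq (D D' : FlopData k K ι) (hR : D'.R = D.R)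
    (hsig : D'.sig = D.sig) (hg : ∀ i, D'.g i = (D.g i)⁻¹) (h1 : D'.Ha (-1) = D.Ha 1)
    (h2 : D'.Ha 1 = D.Ha (-1)) : D.sys.targ true = D'.sys.targ false := by
  have hH : ∀ (c d : Bool) (J : NF (Option ι)),
      D'.sys.HH (TCSys.lab false d - TCSys.lab false c) J =
        D.sys.HH (TCSys.lab true d - TCSys.lab true c) J := by
    intro c d J
    have l1 : TCSys.lab false true = 0 := rfl
    have l2 : TCSys.lab false false = -1 := rfl
    have l3 : TCSys.lab true false = 0 := rfl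
    have l4 : TCSys.lab true true = -1 := rfl
    cases c <;> cases d
    · rw [sub_self, sub_self]; exact HH_zero_eq D D' hR J
    · rw [l1, l2, l3, l4]
      exact HH_eq D D' hR hsig hg (-1 - 0) (0 - -1) (by norm_num)
        (by rw [show (0 : ℤ) - -1 = 1 by norm_num, show (-1 : ℤ) - 0 = -1 by norm_num]; exact h2) J
    · rw [l1, l2, l3, l4]
      exact HH_eq D D' hR hsig hg (0 - -1) (-1 - 0) (by norm_num)
        (by rw [show (0 : ℤ) - -1 = 1 by norm_num, show (-1 : ℤ) - 0 = -1 by norm_num]; exact h1) J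
    · rw [sub_self, sub_self]; exact HH_zero_eq D D' hR J
  apply LocData.ext
  · funext x y
    change cut (x.1 ≤ y.1) _ = cut (x.1 ≤ y.1) _
    rw [hH]
  · funext x
    change cechRing D.R x.1 = cechRing D'.R x.1
    rw [hR]
  · rfl

/-- BOX L2 : flop data give two-chart systems; two flop data with opposite `L` have the same
target category. -/
theorem exists_sys' (D D' : FlopData k K ι) (hR : D'.R = D.R)
    (hsig : D'.sig = D.sig) (hg : ∀ i, D'.g i = (D.g i)⁻¹) (h1 : D'.Ha (-1) = D.Ha 1)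
    (h2 : D'.Ha 1 = D.Ha (-1)) :
    ∃ (S S' : TCSys k K (NF (ι ⊕ Bool)) (NF (Option ι)) (Option ι) (ι ⊕ Bool)),
      S.src = cech D.ch D.ch_fg ∧ S'.src = cech D'.ch D'.ch_fg ∧ S.targ true = S'.targ false :=
  ⟨D.sys, D'.sys, rfl, rfl, targ_eq D D' hR hsig hg h1 h2⟩

end FlopData

end BadRed
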